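import Mathlib
import Pool.Agent.H771R4.SE.LS
import Pool.Agent.H771R4.SE.Rankin

set_option autoImplicit false

/-! # Products of integers without small prime factors: few factorisations

* an integer `n` all of whose prime factors are at least `z` has at most `n ^ a` ordered factorisations
  into `k` factors, if `k ≤ z ^ a`;
* every positive integer is a product of a smooth and a rough integer;
* the sum of `s ^ (-σ)` over smooth numbers. -/

namespace Pool.Agent.N734.AP

open Finset Filter Topology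
open Pool.Agent.H386R2.Artin.T1 (cc)

/-- all prime factors are at least `Z` -/
def Rough (Z n : ℕ) : Prop := ∀ p : ℕ, p.Prime → p ∣ n → Z ≤ p

lemma card_prime_mul (k p m : ℕ) (hp : p.Prime) (hm : m ≠ 0) :
    #(Nat.finMulAntidiag k (p * m)) ≤ k * #(Nat.finMulAntidiag k m) := by
  classical
  have hsub : Nat.finMulAntidiag k (p * m) ⊆
      ((univ : Finset (Fin k)) ×ˢ Nat.finMulAntidiag k m).image
        (fun w => Function.update w.2 w.1 (p * w.2 w.1)) := by
    intro v hv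
    rw [Nat.mem_finMulAntidiag] at hv
    have hd : p ∣ ∏ i, v i := by rw [hv.1]; exact dvd_mul_right _ _
    obtain ⟨i, -, hi⟩ := (Prime.dvd_finsetProd_iff hp.prime _).1 hd
    obtain ⟨c, hc⟩ := hi
    rw [mem_image]
    refine ⟨(i, Function.update v i c), ?_, ?_⟩
    · rw [mem_product]
      refine ⟨mem_univ _, ?_⟩
      rw [Nat.mem_finMulAntidiag]
      refine ⟨?_, hm⟩
      have h1 : ∏ j, Function.update v i c j = c * ∏ j ∈ univ \ {i}, v j :=
        Finset.prod_update_of_mem (mem_univ i) v c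
      have h2 : ∏ j, v j = v i * ∏ j ∈ univ \ {i}, v j := by
        rw [← Finset.prod_update_of_mem (mem_univ i) v (v i), Function.update_eq_self]
      simp only
      rw [h1]
      have h3 : p * (c * ∏ j ∈ univ \ {i}, v j) = p * m := by
        rw [← hv.1, h2, hc]; ring
      exact Nat.eq_of_mul_eq_mul_left hp.pos h3
    · simp only [Function.update_self, Function.update_idem]
      rw [← hc, Function.update_eq_self]
  refine (card_le_card hsub).trans (card_image_le.trans ?_)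
  rw [card_product, card_univ, Fintype.card_fin]

lemma card_one (k : ℕ) : #(Nat.finMulAntidiag k 1) ≤ 1 := by
  rw [Finset.card_le_one]
  intro v hv w hw
  rw [Nat.mem_finMulAntidiag] at hv hw
  have h1 : ∀ u : Fin k → ℕ, ∏ i, u i = 1 → ∀ i, u i = 1 := by
    intro u hu i
    have : u i ∣ ∏ j, u j := Finset.dvd_prod_of_mem u (mem_univ i)
    rw [hu] at this
    exact Nat.dvd_one.1 this
  funext i
  rw [h1 v hv.1 i, h1 w hw.1 i]

/-- the number of ordered factorisations of a rough number -/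
lemma mult (k Z : ℕ) (a : ℝ) (ha : 0 ≤ a) (hk : (k : ℝ) ≤ (Z : ℝ) ^ a) (n : ℕ) (hn : n ≠ 0)
    (hr : Rough Z n) : (#(Nat.finMulAntidiag k n) : ℝ) ≤ (n : ℝ) ^ a := by
  induction n using induction_on_primes with
  | zero => exact absurd rfl hn
  | one =>
    rw [Nat.cast_one, Real.one_rpow]
    exact_mod_cast card_one k
  | prime_mul p m hp ih =>
    have hm : m ≠ 0 := by
      rintro rfl
      exact hn (mul_zero _)
    have ih' := ih hm (fun q hq hqm => hr q hq (hqm.mul_left p))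
    have hZp : Z ≤ p := hr p hp (dvd_mul_right _ _)
    have h1 : (#(Nat.finMulAntidiag k (p * m)) : ℝ) ≤ (k : ℝ) * #(Nat.finMulAntidiag k m) := by
      exact_mod_cast card_prime_mul k p m hp hm
    refine h1.trans ?_
    rw [Nat.cast_mul, Real.mul_rpow (Nat.cast_nonneg _) (Nat.cast_nonneg _)]
    have h2 : (k : ℝ) ≤ (p : ℝ) ^ a :=
      hk.trans (Real.rpow_le_rpow (Nat.cast_nonneg _) (by exact_mod_cast hZp) ha)
    gcongr

lemma cc_rough (E : Finset ℕ) (N k Z : ℕ) (hR : ∀ q ∈ E, Rough Z q) (a : ℝ)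
    (ha : 0 ≤ a) (hk : (k : ℝ) ≤ (Z : ℝ) ^ a) (n : ℕ) (hn : n ∈ Icc 1 (N ^ k)) :
    (cc E k n : ℝ) ≤ (N : ℝ) ^ (a * k) := by
  classical
  rw [mem_Icc] at hn
  have hn0 : n ≠ 0 := by omega
  by_cases h0 : cc E k n = 0
  · rw [h0, Nat.cast_zero]
    positivity
  have hne : ((Fintype.piFinset (fun _ : Fin k => E)).filter (fun v => ∏ i, v i = n)).Nonempty := by
    rw [nonempty_iff_ne_empty]
    intro h
    apply h0
    unfold cc
    rw [h, card_empty]
  obtain ⟨v, hv⟩ := hne
  rw [mem_filter, Fintype.mem_piFinset] at hv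
  have hrough : Rough Z n := by
    intro p hp hpn
    rw [← hv.2] at hpn
    obtain ⟨i, -, hi⟩ := (Prime.dvd_finsetProd_iff hp.prime _).1 hpn
    exact hR _ (hv.1 i) p hp hi
  have h1 : cc E k n ≤ #(Nat.finMulAntidiag k n) := by
    unfold cc
    apply card_le_card
    intro w hw
    rw [mem_filter] at hw
    rw [Nat.mem_finMulAntidiag]
    exact ⟨hw.2, hn0⟩
  have h2 := mult k Z a ha hk n hn0 hrough
  have h3 : (n : ℝ) ^ a ≤ ((N : ℝ) ^ k) ^ a :=
    Real.rpow_le_rpow (Nat.cast_nonneg _) (by exact_mod_cast hn.2) ha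
  calc (cc E k n : ℝ) ≤ #(Nat.finMulAntidiag k n) := by exact_mod_cast h1
    _ ≤ (n : ℝ) ^ a := h2
    _ ≤ ((N : ℝ) ^ k) ^ a := h3
    _ = (N : ℝ) ^ (a * k) := by
      rw [← Real.rpow_natCast, ← Real.rpow_mul (Nat.cast_nonneg _), mul_comm]

/-- every positive integer is a product of a smooth and a rough one -/
lemma exists_smooth_mul_rough (Z n : ℕ) (hn : n ≠ 0) :
    ∃ s r : ℕ, s ∈ Nat.smoothNumbers Z ∧ Rough Z r ∧ n = s * r := by
  induction n using induction_on_primes with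
  | zero => exact absurd rfl hn
  | one =>
    refine ⟨1, 1, ?_, ?_, by norm_num⟩
    · rw [Nat.mem_smoothNumbers']
      intro p hp h1
      exact absurd (Nat.dvd_one.1 h1) hp.one_lt.ne'
    · intro p hp h1
      exact absurd (Nat.dvd_one.1 h1) hp.one_lt.ne'
  | prime_mul p m hp ih =>
    have hm : m ≠ 0 := by
      rintro rfl
      exact hn (mul_zero _)
    obtain ⟨s, r, hs, hr, h⟩ := ih hm
    rcases lt_or_ge p Z with hpZ | hpZ
    · refine ⟨p * s, r, ?_, hr, by rw [h]; ring⟩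
      rw [Nat.mem_smoothNumbers'] at hs ⊢
      intro q hq hqs
      rcases (hq.dvd_mul).1 hqs with h1 | h1
      · rw [(Nat.prime_dvd_prime_iff_eq hq hp).1 h1]
        exact hpZ
      · exact hs q hq h1
    · refine ⟨s, p * r, hs, ?_, by rw [h]; ring⟩
      intro q hq hqs
      rcases (hq.dvd_mul).1 hqs with h1 | h1
      · rw [(Nat.prime_dvd_prime_iff_eq hq hp).1 h1]
        exact hpZ
      · exact hr q hq h1

open Pool.Agent.H771R4.SE (negpow)

lemma smooth_sum (σ : ℝ) (hσ : 0 < σ) (hσ1 : σ < 1) (Z : ℕ) (S : Finset ℕ)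
    (hS : ∀ s ∈ S, s ∈ Nat.smoothNumbers Z) :
    ∑ s ∈ S, (s : ℝ) ^ (-σ) ≤
      Real.exp ((1 - (2 : ℝ) ^ (-σ))⁻¹ * ((Z : ℝ) ^ (1 - σ) / (1 - σ))) := by
  classical
  have hlt : ∀ {p : ℕ}, p.Prime → ‖negpow σ p‖ < 1 := by
    intro p hp
    change ‖(p : ℝ) ^ (-σ)‖ < 1
    have hp0 : (0 : ℝ) < p := by exact_mod_cast hp.pos
    rw [Real.norm_eq_abs, abs_of_pos (by positivity)]
    exact Real.rpow_lt_one_of_one_lt_of_neg (by exact_mod_cast hp.one_lt) (by linarith)
  obtain ⟨_, h2⟩ := EulerProduct.summable_and_hasSum_smoothNumbers_prod_primesBelow_geometric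
    hlt Z
  have h5 := sum_le_hasSum (S.subtype (· ∈ Nat.smoothNumbers Z))
    (fun i _ => by
      change (0 : ℝ) ≤ ((i : ℕ) : ℝ) ^ (-σ)
      positivity) h2
  rw [Finset.sum_subtype_of_mem (fun m : ℕ => negpow σ m) hS] at h5
  refine le_trans (le_trans (le_of_eq rfl) h5) ?_
  -- the product
  have h2lt : (2 : ℝ) ^ (-σ) < 1 := Real.rpow_lt_one_of_one_lt_of_neg (by norm_num) (by linarith)
  set B : ℝ := (1 - (2 : ℝ) ^ (-σ))⁻¹ with hB
  have hB0 : 0 < B := inv_pos.2 (by linarith)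
  have h1 : ∀ p ∈ Z.primesBelow, (1 - (p : ℝ) ^ (-σ))⁻¹ ≤ Real.exp (B * (p : ℝ) ^ (-σ)) := by
    intro p hp
    have hpp := Nat.prime_of_mem_primesBelow hp
    have hp2 : (2 : ℝ) ≤ p := by exact_mod_cast hpp.two_le
    set t : ℝ := (p : ℝ) ^ (-σ) with ht
    have ht0 : 0 < t := by positivity
    have ht2 : t ≤ (2 : ℝ) ^ (-σ) := Real.rpow_le_rpow_of_nonpos (by norm_num) hp2 (by linarith)
    have ht1 : 0 < 1 - t := by linarith
    have e1 : (1 - t)⁻¹ = t * (1 - t)⁻¹ + 1 := by field_simp; ring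
    have e2 : (1 - t)⁻¹ ≤ B := by
      rw [hB]
      exact inv_anti₀ (by linarith) (by linarith)
    have e3 : t * (1 - t)⁻¹ ≤ B * t := by
      rw [mul_comm B t]
      exact mul_le_mul_of_nonneg_left e2 ht0.le
    calc (1 - t)⁻¹ = t * (1 - t)⁻¹ + 1 := e1
      _ ≤ B * t + 1 := by linarith
      _ ≤ Real.exp (B * t) := Real.add_one_le_exp _
  have h3 : ∏ p ∈ Z.primesBelow, (1 - negpow σ p)⁻¹ ≤
      ∏ p ∈ Z.primesBelow, Real.exp (B * (p : ℝ) ^ (-σ)) := by
    apply Finset.prod_le_prod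
    · intro p hp
      have hpp := Nat.prime_of_mem_primesBelow hp
      have hp2 : (2 : ℝ) ≤ p := by exact_mod_cast hpp.two_le
      have ht2 : (p : ℝ) ^ (-σ) ≤ (2 : ℝ) ^ (-σ) :=
        Real.rpow_le_rpow_of_nonpos (by norm_num) hp2 (by linarith)
      change 0 ≤ (1 - (p : ℝ) ^ (-σ))⁻¹
      exact inv_nonneg.2 (by linarith)
    · exact h1
  refine h3.trans ?_
  rw [← Real.exp_sum]
  apply Real.exp_le_exp.2
  rw [← mul_sum]
  apply mul_le_mul_of_nonneg_left _ hB0.le
  -- the sum over the primes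
  have h4 : ∑ p ∈ Z.primesBelow, (p : ℝ) ^ (-σ) ≤ ∑ m ∈ Finset.Icc 1 Z, (m : ℝ) ^ (-σ) := by
    apply Finset.sum_le_sum_of_subset_of_nonneg
    · intro p hp
      rw [mem_Icc]
      exact ⟨(Nat.prime_of_mem_primesBelow hp).one_lt.le, (Nat.lt_of_mem_primesBelow hp).le⟩
    · intro m _ _
      positivity
  refine h4.trans ?_
  -- compare with the telescoping sum
  have h6 : ∀ n : ℕ, ∑ m ∈ Finset.Icc 1 n, (m : ℝ) ^ (-σ) ≤ (n : ℝ) ^ (1 - σ) / (1 - σ) := by
    intro n
    induction n with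
    | zero =>
      simp only [show Finset.Icc 1 0 = (∅ : Finset ℕ) from rfl, Finset.sum_empty]
      have : 0 < 1 - σ := by linarith
      positivity
    | succ n ih =>
      rw [Finset.sum_Icc_succ_top (by omega)]
      have hs : 0 < 1 - σ := by linarith
      rw [le_div_iff₀ hs] at ih ⊢
      rw [add_mul]
      have hm : (0 : ℝ) < ((n + 1 : ℕ) : ℝ) := by positivity
      set y : ℝ := ((n + 1 : ℕ) : ℝ) with hy
      have hny : (n : ℝ) = y - 1 := by rw [hy]; push_cast; ring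
      -- Bernoulli: (1 - 1/y)^(1-σ) ≤ 1 - (1-σ)/y
      have hb : (1 + (-1 / y)) ^ (1 - σ) ≤ 1 + (1 - σ) * (-1 / y) := by
        apply rpow_one_add_le_one_add_mul_self _ hs.le (by linarith)
        rw [le_div_iff₀ hm]
        have : (1 : ℝ) ≤ y := by rw [hy]; push_cast; linarith [(Nat.cast_nonneg n : (0:ℝ) ≤ n)]
        linarith
      have h7 : (n : ℝ) ^ (1 - σ) = y ^ (1 - σ) * (1 + (-1 / y)) ^ (1 - σ) := by
        rw [← Real.mul_rpow hm.le]
        · congr 1
          rw [hny]; field_simp; ring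
        · have : (1 : ℝ) ≤ y := by rw [hy]; push_cast; linarith [(Nat.cast_nonneg n : (0:ℝ) ≤ n)]
          have h8 : 1 / y ≤ 1 := by rw [div_le_one hm]; exact this
          have : (-1 : ℝ) / y = - (1 / y) := by ring
          rw [this]; linarith
      have h9 : y ^ (-σ) = y ^ (1 - σ) / y := by
        rw [← Real.rpow_sub_one hm.ne']; congr 1; ring
      have h10 : 0 < y ^ (1 - σ) := by positivity
      have h11 : (n : ℝ) ^ (1 - σ) ≤ y ^ (1 - σ) * (1 + (1 - σ) * (-1 / y)) := by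
        rw [h7]; gcongr
      have h12 : y ^ (1 - σ) * (1 + (1 - σ) * (-1 / y)) =
          y ^ (1 - σ) - y ^ (1 - σ) / y * (1 - σ) := by ring
      rw [h9]
      linarith
  exact h6 Z

end Pool.Agent.N734.AP
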