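import Mathlib
import Pool.Agent.N734.AP.Mult

set_option autoImplicit false

/-! # The large sieve for sets of rough numbers

`E ⊆ [1, M]` a set of integers without prime factors below `Z`, `#E ≥ M ^ (1 / 2 + β + 3 δ)` where
`4 log x / log M ≤ Z ^ β`. -/

namespace Pool.Agent.N734.AP

open Finset Filter Topology
open Pool.Agent.H386R2.Artin (PP Good)
open Pool.Agent.H386R2.Artin.T1 (cc)
open Pool.Agent.H771R4.SE (badCountI)

theorem fewBadR (δ β : ℝ) (hδ : 0 < δ) (hδ8 : δ ≤ 1 / 8) (hβ : 0 ≤ β) (Z M x : ℕ) (hM : 2 ≤ M)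
    (hMx : Real.log M ≤ δ * Real.log x) (hTx : 2 * Real.log (Real.log x) ≤ δ * Real.log M)
    (hlx1 : 1 ≤ Real.log x) (hrZ : 4 * Real.log x / Real.log M ≤ (Z : ℝ) ^ β)
    (E : Finset ℕ) (hE : E ⊆ Icc 1 M) (hR : ∀ q ∈ E, Rough Z q)
    (hEc : (M : ℝ) ^ (1 / 2 + β + 3 * δ) ≤ (#E : ℝ))
    (S : Finset ℕ) (hS : ∀ p ∈ S, p ∈ PP x ∧ ¬ Good E ((#E : ℝ) / Real.log x) p) :
    (#S : ℝ) ≤ 12 * (x : ℝ) ^ (1 - δ) := by
  classical
  have hM0 : (0 : ℝ) < M := by exact_mod_cast (by omega : 0 < M)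
  have hM1 : (1 : ℝ) < M := by exact_mod_cast (by omega : 1 < M)
  have hx0 : (0 : ℝ) < x := by
    rcases Nat.eq_zero_or_pos x with h | h
    · rw [h, Nat.cast_zero, Real.log_zero] at hlx1
      linarith
    · exact_mod_cast h
  set lM : ℝ := Real.log M with hlM
  set lx : ℝ := Real.log x with hlx
  have hlM0 : 0 < lM := Real.log_pos hM1
  have hlx0 : 0 < lx := by linarith
  -- r
  set t : ℝ := (1 + δ) * lx / ((1 / 2 + 2 * δ) * lM) with ht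
  have hden : 0 < (1 / 2 + 2 * δ) * lM := by positivity
  have ht0 : 0 < t := by positivity
  set r : ℕ := ⌈t⌉₊ with hr
  have hr1 : t ≤ r := Nat.le_ceil _
  have hr2 : (r : ℝ) < t + 1 := Nat.ceil_lt_add_one ht0.le
  have hr0 : (0 : ℝ) ≤ r := Nat.cast_nonneg _
  have htl : t * ((1 / 2 + 2 * δ) * lM) = (1 + δ) * lx := by
    rw [ht]; field_simp
  have hrs : (r : ℝ) ≤ (Z : ℝ) ^ β := by
    refine le_trans ?_ hrZ
    rw [le_div_iff₀ hlM0]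
    have h1 : (r : ℝ) * lM ≤ (t + 1) * lM := by gcongr
    have h2 : t * lM ≤ 9 / 4 * lx := by
      have h3 : t * lM * (1 / 2) ≤ (1 + δ) * lx := by
        rw [← htl]
        have : 0 ≤ t * (2 * δ * lM) := by positivity
        linarith
      have h4 : (1 + δ) * lx ≤ 9 / 8 * lx := by gcongr; linarith
      linarith
    have h5 : δ * lx ≤ 1 / 8 * lx := by gcongr
    linarith
  -- the two inequalities between exponents
  have ea : (r : ℝ) * (1 / 2 - 2 * δ) * lM ≤ (1 - δ) * lx := by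
    have hpos : 0 < 1 / 2 - 2 * δ := by linarith
    have h3 : (r : ℝ) * (1 / 2 - 2 * δ) * lM ≤ (t + 1) * (1 / 2 - 2 * δ) * lM := by gcongr
    refine h3.trans ?_
    have h4 : (1 / 2 + 2 * δ) * ((t + 1) * (1 / 2 - 2 * δ) * lM) ≤
        (1 / 2 + 2 * δ) * ((1 - δ) * lx) := by
      have h5 : (1 / 2 + 2 * δ) * ((t + 1) * (1 / 2 - 2 * δ) * lM) =
          (1 / 2 - 2 * δ) * ((1 + δ) * lx) + (1 / 2 + 2 * δ) * (1 / 2 - 2 * δ) * lM := by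
        rw [← htl]; ring
      have h6 : (1 / 2 + 2 * δ) * (1 / 2 - 2 * δ) * lM ≤
          (1 / 2 + 2 * δ) * (1 / 2 - 2 * δ) * (δ * lx) := by gcongr
      rw [h5]
      nlinarith [mul_pos hδ hlx0, mul_pos (mul_pos hδ hδ) hlx0,
        mul_pos (mul_pos (mul_pos hδ hδ) hδ) hlx0]
    exact le_of_mul_le_mul_left h4 (by positivity)
  have eb : (1 + δ) * lx ≤ (r : ℝ) * (1 / 2 + 2 * δ) * lM := by
    have : t * ((1 / 2 + 2 * δ) * lM) ≤ r * ((1 / 2 + 2 * δ) * lM) := by gcongr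
    linarith
  -- the bound for cc
  set K : ℝ := (M : ℝ) ^ (β * r) with hK
  have hK0 : 0 ≤ K := by positivity
  have hcc : ∀ n ∈ Icc 1 (M ^ r), (cc E r n : ℝ) ≤ K := fun n hn =>
    cc_rough E M r Z hR β hβ hrs n hn
  have hE0 : (0 : ℝ) < #E := lt_of_lt_of_le (by positivity) hEc
  have hbad := badCountI E M x r ((#E : ℝ) / lx) K hE (by positivity) hK0 hcc
  have hSb : (#S : ℝ) ≤ (#((PP x).filter (fun p => ¬ Good E ((#E : ℝ) / lx) p)) : ℝ) := by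
    have : S ⊆ (PP x).filter (fun p => ¬ Good E ((#E : ℝ) / lx) p) := by
      intro p hp
      rw [mem_filter]
      exact hS p hp
    exact_mod_cast card_le_card this
  set b : ℝ := (#((PP x).filter (fun p => ¬ Good E ((#E : ℝ) / lx) p)) : ℝ) with hb
  have hb0 : 0 ≤ b := Nat.cast_nonneg _
  -- divide
  have h3 : b * (#E : ℝ) ^ r ≤ 6 * ((M : ℝ) ^ r + (x : ℝ) ^ 2) * K * lx ^ (2 * r) := by
    have e1 : ((#E : ℝ) / lx) ^ (2 * r) = (#E : ℝ) ^ r * (#E : ℝ) ^ r / lx ^ (2 * r) := by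
      rw [div_pow]
      congr 1
      rw [two_mul, pow_add]
    rw [e1] at hbad
    have hEr : (0 : ℝ) < (#E : ℝ) ^ r := by positivity
    have hTr : (0 : ℝ) < lx ^ (2 * r) := by positivity
    have h4 : b * ((#E : ℝ) ^ r * (#E : ℝ) ^ r / lx ^ (2 * r)) * (lx ^ (2 * r) / (#E : ℝ) ^ r) ≤
        6 * ((M : ℝ) ^ r + (x : ℝ) ^ 2) * (K * (#E : ℝ) ^ r) * (lx ^ (2 * r) / (#E : ℝ) ^ r) :=
      mul_le_mul_of_nonneg_right hbad (by positivity)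
    have e2 : b * ((#E : ℝ) ^ r * (#E : ℝ) ^ r / lx ^ (2 * r)) * (lx ^ (2 * r) / (#E : ℝ) ^ r) =
        b * (#E : ℝ) ^ r := by field_simp
    have e3 : 6 * ((M : ℝ) ^ r + (x : ℝ) ^ 2) * (K * (#E : ℝ) ^ r) *
        (lx ^ (2 * r) / (#E : ℝ) ^ r) =
        6 * ((M : ℝ) ^ r + (x : ℝ) ^ 2) * K * lx ^ (2 * r) := by field_simp
    rwa [e2, e3] at h4
  have hTR : lx ^ (2 * r) ≤ (M : ℝ) ^ (δ * r) := by
    have e1 : lx ^ 2 ≤ (M : ℝ) ^ δ := by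
      have e2 : Real.log (lx ^ 2) ≤ δ * lM := by
        rw [Real.log_pow]
        push_cast
        linarith
      rw [Real.rpow_def_of_pos hM0, ← hlM, mul_comm lM δ]
      rw [← Real.log_le_iff_le_exp (by positivity)]
      exact e2
    calc lx ^ (2 * r) = (lx ^ 2) ^ r := by rw [pow_mul]
      _ ≤ ((M : ℝ) ^ δ) ^ r := pow_le_pow_left₀ (by positivity) e1 _
      _ = (M : ℝ) ^ (δ * r) := by rw [← Real.rpow_natCast, ← Real.rpow_mul hM0.le]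
  -- the power of M
  have hEr : (M : ℝ) ^ ((r : ℝ) * (1 / 2 + β + 3 * δ)) ≤ (#E : ℝ) ^ r := by
    have : (M : ℝ) ^ ((r : ℝ) * (1 / 2 + β + 3 * δ)) = ((M : ℝ) ^ (1 / 2 + β + 3 * δ)) ^ r := by
      rw [← Real.rpow_natCast, ← Real.rpow_mul hM0.le, mul_comm]
    rw [this]
    exact pow_le_pow_left₀ (by positivity) hEc _
  have h5 : b * (M : ℝ) ^ ((r : ℝ) * (1 / 2 + β + 3 * δ)) ≤
      6 * ((M : ℝ) ^ r + (x : ℝ) ^ 2) * K * lx ^ (2 * r) :=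
    (mul_le_mul_of_nonneg_left hEr hb0).trans h3
  have hpos : (0 : ℝ) < (M : ℝ) ^ ((r : ℝ) * (1 / 2 + β + 3 * δ)) := by positivity
  have h6 : b ≤ 6 * ((M : ℝ) ^ r + (x : ℝ) ^ 2) * K * lx ^ (2 * r) *
      (M : ℝ) ^ (-((r : ℝ) * (1 / 2 + β + 3 * δ))) := by
    rw [Real.rpow_neg hM0.le, ← div_eq_mul_inv, le_div_iff₀ hpos]
    exact h5
  have hMexp : ∀ s : ℝ, (M : ℝ) ^ s = Real.exp (s * lM) := fun s => by
    rw [Real.rpow_def_of_pos hM0, mul_comm]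
  have hxexp : ∀ s : ℝ, (x : ℝ) ^ s = Real.exp (s * lx) := fun s => by
    rw [Real.rpow_def_of_pos hx0, mul_comm]
  have h7 : ((M : ℝ) ^ r + (x : ℝ) ^ 2) * (M : ℝ) ^ (-((r : ℝ) * (1 / 2 + 2 * δ))) ≤
      2 * (x : ℝ) ^ (1 - δ) := by
    have e2 : (M : ℝ) ^ r * (M : ℝ) ^ (-((r : ℝ) * (1 / 2 + 2 * δ))) =
        (M : ℝ) ^ ((r : ℝ) * (1 / 2 - 2 * δ)) := by
      rw [← Real.rpow_natCast, ← Real.rpow_add hM0]; congr 1; ring
    have e3 : (M : ℝ) ^ ((r : ℝ) * (1 / 2 - 2 * δ)) ≤ (x : ℝ) ^ (1 - δ) := by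
      rw [hMexp, hxexp]
      exact Real.exp_le_exp.2 ea
    have e4 : (x : ℝ) ^ 2 * (M : ℝ) ^ (-((r : ℝ) * (1 / 2 + 2 * δ))) ≤ (x : ℝ) ^ (1 - δ) := by
      have : (x : ℝ) ^ 2 = (x : ℝ) ^ (2 : ℝ) := by norm_cast
      rw [this, hMexp, hxexp, hxexp, ← Real.exp_add]
      apply Real.exp_le_exp.2
      linarith
    rw [add_mul, e2]
    linarith
  have h8 : K * (M : ℝ) ^ (δ * r) * (M : ℝ) ^ (-((r : ℝ) * (1 / 2 + β + 3 * δ))) =
      (M : ℝ) ^ (-((r : ℝ) * (1 / 2 + 2 * δ))) := by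
    rw [hK, ← Real.rpow_add hM0, ← Real.rpow_add hM0]
    congr 1
    ring
  calc (#S : ℝ) ≤ b := hSb
    _ ≤ 6 * ((M : ℝ) ^ r + (x : ℝ) ^ 2) * K * lx ^ (2 * r) *
      (M : ℝ) ^ (-((r : ℝ) * (1 / 2 + β + 3 * δ))) := h6
    _ ≤ 6 * ((M : ℝ) ^ r + (x : ℝ) ^ 2) * K * (M : ℝ) ^ (δ * r) *
      (M : ℝ) ^ (-((r : ℝ) * (1 / 2 + β + 3 * δ))) := by gcongr
    _ = 6 * (((M : ℝ) ^ r + (x : ℝ) ^ 2) * (K * (M : ℝ) ^ (δ * r) *
      (M : ℝ) ^ (-((r : ℝ) * (1 / 2 + β + 3 * δ))))) := by ring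
    _ = 6 * (((M : ℝ) ^ r + (x : ℝ) ^ 2) * (M : ℝ) ^ (-((r : ℝ) * (1 / 2 + 2 * δ)))) := by rw [h8]
    _ ≤ 6 * (2 * (x : ℝ) ^ (1 - δ)) := by gcongr
    _ = 12 * (x : ℝ) ^ (1 - δ) := by ring

end Pool.Agent.N734.AP
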