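import Mathlib
import Pool.Agent.H771R4.SE.Avg3
import Pool.Agent.N734.AP.LSR

set_option autoImplicit false

/-! # The average over a set of integers with few bad primes -/

namespace Pool.Agent.N734.AP

open Finset Filter Topology
open Pool.Agent.H386R2.Artin (PP Good hL gL card_PP ev1 ev3 ev5 tlog pi_lower sumH omegaLarge)
open Pool.Agent.H771R4.SE (Dat cntE cntE_sum evB)

theorem avgG (d0 : Dat) (δ : ℝ) (hδ : 0 < δ) (ε : ℝ) (hε : 0 < ε) : ∃ x₀ : ℕ, ∀ d : Dat,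
    d.G = d0.G → d.A = d0.A → d.p0 = d0.p0 → ∀ N x : ℕ, x₀ ≤ x → (N : ℝ) ^ 2 ≤ x →
      ∀ E : Finset ℕ, E ⊆ Icc 1 N → (x₀ : ℝ) ≤ (#E : ℝ) →
        (∀ S : Finset ℕ, (∀ p ∈ S, p ∈ PP x ∧ ¬ Good E ((#E : ℝ) / Real.log x) p) →
          (#S : ℝ) ≤ 12 * (x : ℝ) ^ (1 - δ)) →
          |∑ q ∈ E, (cntE d q x : ℝ) - d.A * Nat.primeCounting x * #E| ≤
            ε * Nat.primeCounting x * #E := by
  classical
  obtain ⟨CH, hC, h5⟩ := sumH
  obtain ⟨x₆, hx₆⟩ := omegaLarge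
  obtain ⟨y₀, hy3, hy₀⟩ := pi_lower
  set ε' : ℝ := ε / 20 with hε'd
  have hε' : 0 < ε' := by positivity
  have hCL : ∀ᶠ L : ℕ in atTop, CH / (L : ℝ) < ε' := by
    have : Tendsto (fun L : ℕ => CH / (L : ℝ)) atTop (𝓝 0) :=
      tendsto_const_nhds.div_atTop tendsto_natCast_atTop_atTop
    exact this.eventually (gt_mem_nhds hε')
  obtain ⟨L, hL2, hL3⟩ := (hCL.and (eventually_ge_atTop 2)).exists
  obtain ⟨x₅, hx₅⟩ := h5 L (by omega)
  have hG : ∀ᶠ x : ℕ in atTop,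
      |(∑ p ∈ PP x, d0.G p) / (Nat.primeCounting x : ℝ) - d0.A| < ε' := by
    have := (Metric.tendsto_nhds.1 d0.lim) ε' hε'
    simpa [Real.dist_eq] using this
  have hev := ((((((evB 12 0 δ ε' hδ hε' (by norm_num)).and
    (ev1 (1 / 2) ε' (by norm_num) hε')).and (ev3 ε' hε')).and (ev5 ε' 1 (2 ^ L) hε' (by norm_num))).and
    hG).and (tlog.eventually_ge_atTop (max 3 (y₀ : ℝ)))).and
    (((eventually_ge_atTop x₅).and (eventually_ge_atTop x₆)).and (eventually_ge_atTop y₀))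
  obtain ⟨x₀, hx₀⟩ := eventually_atTop.1 hev
  refine ⟨max (max x₀ ⌈1 / ε'⌉₊) (d0.p0 ^ 2), fun d hdG hdA hdp N₀ x hx' hNx₀ E hE₀ hEc hfew => ?_⟩
  have hxx : x₀ ≤ x := ((le_max_left _ _).trans (le_max_left _ _)).trans hx'
  have hxp : d.p0 ^ 2 ≤ x := by rw [hdp]; exact (le_max_right _ _).trans hx'
  set N : ℕ := max N₀ d.p0 with hNdef
  have hE : E ⊆ Icc 1 N := hE₀.trans (Icc_subset_Icc_right (le_max_left _ _))
  have hNp0 : d.p0 ≤ N := le_max_right _ _
  have hNx : (N : ℝ) ^ 2 ≤ x := by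
    rcases le_total N₀ d.p0 with h | h
    · rw [hNdef, max_eq_right h]
      exact_mod_cast hxp
    · rw [hNdef, max_eq_left h]
      exact hNx₀
  obtain ⟨⟨⟨⟨⟨⟨e1, e2⟩, e3⟩, e5⟩, eG⟩, hX⟩, ⟨⟨hxx5, hxx6⟩, hxxy⟩⟩ := hx₀ x hxx
  rw [← hdG, ← hdA] at eG
  have hP := hy₀ x hxxy
  set P : ℝ := (Nat.primeCounting x : ℝ) with hPd
  set X : ℝ := Real.log x with hXd
  have hX3 : 3 ≤ X := le_trans (le_max_left _ _) hX
  have hX0 : 0 < X := by linarith
  have hX1 : 1 ≤ X := by linarith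
  have hx3 : 3 ≤ x := le_trans hy3 hxxy
  have hx0 : (0 : ℝ) < x := by exact_mod_cast (by omega : 0 < x)
  have hx1 : (1 : ℝ) ≤ x := by exact_mod_cast (by omega : 1 ≤ x)
  have hP0 : 0 < P := lt_of_lt_of_le (by positivity) hP
  set e : ℝ := (#E : ℝ) with hed
  have hone : 1 ≤ ε' * e := by
    have h1 : ((⌈1 / ε'⌉₊ : ℕ) : ℝ) ≤ e := by
      refine le_trans ?_ hEc
      exact_mod_cast (le_max_right x₀ _).trans (le_max_left _ _)
    have h2 : 1 / ε' ≤ e := (Nat.le_ceil _).trans h1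
    rw [div_le_iff₀ hε'] at h2
    linarith
  have he0 : 0 < e := by
    by_contra hcon
    push Not at hcon
    have : ε' * e ≤ 0 := mul_nonpos_of_nonneg_of_nonpos hε'.le hcon
    linarith
  have hNup : (N : ℝ) ≤ (x : ℝ) ^ (1 - 1 / 2 : ℝ) := by
    have h1 : (x : ℝ) ^ (1 - 1 / 2 : ℝ) = Real.sqrt x := by
      rw [Real.sqrt_eq_rpow]; norm_num
    rw [h1]
    exact Real.le_sqrt_of_sq_le hNx
  set M : ℝ := e / X with hMd
  have hM0 : 0 < M := by positivity
  set W : ℝ := 5 * Real.log X with hWd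
  have hW0 : 0 ≤ W := by
    have := Real.log_nonneg hX1
    positivity
  set F : ℕ → ℝ := fun p => (#(E.filter (fun q : ℕ => d.Q p ((q : ℕ) : ZMod p))) : ℝ) with hFd
  have hF0 : ∀ p, 0 ≤ F p := fun p => Nat.cast_nonneg _
  have hFe : ∀ p, F p ≤ e := fun p => by
    simp only [hFd, hed]
    exact_mod_cast card_filter_le _ _
  set Z1 : Finset ℕ := (PP x).filter (fun p => ¬ Good E M p) with hZ1
  set Z2 : Finset ℕ := (PP x).filter (fun p : ℕ => p ≤ N) with hZ2
  set Z3 : Finset ℕ := (PP x).filter (fun p => W < ((p - 1).primeFactors.card : ℝ)) with hZ3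
  have hZ1c : (#Z1 : ℝ) ≤ ε' * P := by
    have h1 := hfew Z1 (fun p hp => by
      rw [hZ1, mem_filter] at hp
      exact hp)
    rw [pow_zero, mul_one] at e1
    refine h1.trans (e1.trans ?_)
    gcongr
  have hZ2c : (#Z2 : ℝ) ≤ ε' * P := by
    have h1 : Z2 ⊆ Icc 1 N := by
      intro p hp
      rw [hZ2, mem_filter, PP, mem_filter] at hp
      rw [mem_Icc]
      exact ⟨hp.1.2.one_le, hp.2⟩
    have h2 : (#Z2 : ℝ) ≤ N := by
      have := card_le_card h1
      rw [Nat.card_Icc, Nat.add_sub_cancel] at this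
      exact_mod_cast this
    refine h2.trans (hNup.trans (e2.trans ?_))
    gcongr
  have hZ3c : (#Z3 : ℝ) ≤ ε' * P := by
    refine le_trans (hx₆ x hxx6) (le_trans e3 ?_)
    gcongr
  have hpt : ∀ p ∈ PP x, |F p - e * d.G p| ≤
      (if p ∈ Z1 then 2 * e else 0) + (if p ∈ Z2 then 2 * e else 0) +
        (if p ∈ Z3 then 2 * e else 0) +
        3 * (1 + 2 ^ L * M + W * M + e * hL L (p - 1)) := by
    intro p hp
    have hg0 := d.G0 p
    have hg1 := d.G1 p
    have hh0 : 0 ≤ hL L (p - 1) := Finset.sum_nonneg fun l _ => by positivity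
    have hrest : 0 ≤ 3 * (1 + 2 ^ L * M + W * M + e * hL L (p - 1)) := by positivity
    have htriv : |F p - e * d.G p| ≤ 2 * e := by
      have f0 := hF0 p
      have fe := hFe p
      have g1 : 0 ≤ e * d.G p := mul_nonneg he0.le hg0
      have g2 : e * d.G p ≤ e * 2 := mul_le_mul_of_nonneg_left hg1 he0.le
      rw [abs_le]
      constructor
      · linarith
      · linarith
    have i1 : 0 ≤ (if p ∈ Z1 then 2 * e else 0) := by split_ifs <;> linarith
    have i2 : 0 ≤ (if p ∈ Z2 then 2 * e else 0) := by split_ifs <;> linarith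
    have i3 : 0 ≤ (if p ∈ Z3 then 2 * e else 0) := by split_ifs <;> linarith
    by_cases c1 : p ∈ Z1
    · rw [if_pos c1]; linarith
    by_cases c2 : p ∈ Z2
    · rw [if_pos c2]; linarith
    by_cases c3 : p ∈ Z3
    · rw [if_pos c3]; linarith
    have hgood : Good E M p := by
      by_contra hcon; exact c1 (mem_filter.2 ⟨hp, hcon⟩)
    have hpN : N < p := by
      by_contra hcon; exact c2 (mem_filter.2 ⟨hp, not_lt.1 hcon⟩)
    have hom : ((p - 1).primeFactors.card : ℝ) ≤ W := by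
      by_contra hcon; exact c3 (mem_filter.2 ⟨hp, not_le.1 hcon⟩)
    have hpp : p.Prime := (mem_filter.1 hp).2
    have hE0 : ∀ q ∈ E, ((q : ℕ) : ZMod p) ≠ 0 := by
      intro q hq h
      rw [ZMod.natCast_eq_zero_iff] at h
      have h1 := mem_Icc.1 (hE hq)
      have := Nat.le_of_dvd (by omega) h
      omega
    have := d.loc p hpp (by omega) E M L hL3 hE0 hM0.le hgood
    refine le_trans (le_trans (le_of_eq ?_) this) ?_
    · simp only [hFd, hed]
    have h8 : ((p - 1).primeFactors.card : ℝ) * M ≤ W * M := by gcongr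
    have h9 : 0 ≤ 2 ^ L * M := by positivity
    have h10 : 0 ≤ W * M := by positivity
    have h11 : 0 ≤ e * hL L (p - 1) := by positivity
    linarith
  have hsum : |∑ p ∈ PP x, F p - e * ∑ p ∈ PP x, d.G p| ≤
      3 * (2 * (ε' * P * e)) + 3 * (P * (1 + 2 ^ L * M + W * M)) + 3 * (e * (CH / L * P)) := by
    have hs1 : ∑ p ∈ PP x, F p - e * ∑ p ∈ PP x, d.G p =
        ∑ p ∈ PP x, (F p - e * d.G p) := by
      rw [Finset.sum_sub_distrib, Finset.mul_sum]
    rw [hs1]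
    refine le_trans (Finset.abs_sum_le_sum_abs _ _) (le_trans (Finset.sum_le_sum hpt) ?_)
    rw [Finset.sum_add_distrib, Finset.sum_add_distrib, Finset.sum_add_distrib, ← Finset.mul_sum,
      Finset.sum_add_distrib]
    have hsub : ∀ Z : Finset ℕ, Z ⊆ PP x →
        ∑ p ∈ PP x, (if p ∈ Z then 2 * e else 0) = #Z * (2 * e) := by
      intro Z hZ
      rw [← Finset.sum_filter, Finset.sum_const, nsmul_eq_mul, Finset.filter_mem_eq_inter,
        Finset.inter_eq_right.2 hZ]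
    rw [hsub Z1 (filter_subset _ _), hsub Z2 (filter_subset _ _), hsub Z3 (filter_subset _ _),
      Finset.sum_const, nsmul_eq_mul, card_PP, ← hPd, ← Finset.mul_sum]
    have hh := hx₅ x hxx5
    have g1 : (#Z1 : ℝ) * (2 * e) ≤ ε' * P * (2 * e) := by gcongr
    have g2 : (#Z2 : ℝ) * (2 * e) ≤ ε' * P * (2 * e) := by gcongr
    have g3 : (#Z3 : ℝ) * (2 * e) ≤ ε' * P * (2 * e) := by gcongr
    have g4 : e * ∑ p ∈ PP x, hL L (p - 1) ≤ e * (CH / L * P) := by gcongr
    linarith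
  rw [cntE_sum d E x]
  change |∑ p ∈ PP x, F p - d.A * P * e| ≤ ε * P * e
  have hMs : P * (1 + 2 ^ L * M + W * M) ≤ 2 * (ε' * P * e) := by
    have k1 : 2 ^ L * M + W * M = e * ((2 ^ L + W) / X) := by
      rw [hMd]; ring
    rw [Real.rpow_one] at e5
    have k2 : e * ((2 ^ L + W) / X) ≤ e * ε' := by gcongr
    have k3 : 1 + 2 ^ L * M + W * M ≤ 2 * (ε' * e) := by linarith
    calc P * (1 + 2 ^ L * M + W * M) ≤ P * (2 * (ε' * e)) := by gcongr
      _ = 2 * (ε' * P * e) := by ring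
  have hCLP : e * (CH / L * P) ≤ ε' * P * e := by
    have : CH / (L : ℝ) * P ≤ ε' * P := by gcongr
    nlinarith
  have hGP : |e * ∑ p ∈ PP x, d.G p - d.A * P * e| ≤ ε' * P * e := by
    have k1 : e * ∑ p ∈ PP x, d.G p - d.A * P * e =
        ((∑ p ∈ PP x, d.G p) / P - d.A) * (P * e) := by
      field_simp
    rw [k1, abs_mul, abs_of_pos (by positivity : 0 < P * e)]
    calc |(∑ p ∈ PP x, d.G p) / P - d.A| * (P * e) ≤ ε' * (P * e) := by gcongr
      _ = ε' * P * e := by ring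
  have htri : |∑ p ∈ PP x, F p - d.A * P * e| ≤
      |∑ p ∈ PP x, F p - e * ∑ p ∈ PP x, d.G p| +
      |e * ∑ p ∈ PP x, d.G p - d.A * P * e| := abs_sub_le _ _ _
  have hfin : 16 * (ε' * P * e) ≤ ε * P * e := by
    have k1 : ε = 20 * ε' := by linarith [hε'd]
    have k2 : 0 ≤ ε' * P * e := mul_nonneg (mul_nonneg hε'.le hP0.le) he0.le
    have k3 : ε * P * e = 20 * (ε' * P * e) := by
      calc ε * P * e = (20 * ε') * P * e := by rw [← k1]
        _ = 20 * (ε' * P * e) := by ring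
    linarith
  linarith


end Pool.Agent.N734.AP
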