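import Mathlib
import Pool.Agent.N734.AP.Avg

set_option autoImplicit false

/-! # The exceptional integers with a given smooth part -/

namespace Pool.Agent.N734.AP

open Finset Filter Topology
open Pool.Agent.H386R2.Artin (PP Good)
open Pool.Agent.H771R4.SE (Dat cntE)

/-- multiplication by `s` keeps character sums small -/
lemma good_image (E : Finset ℕ) (s p : ℕ) (hs : 1 ≤ s) (M : ℝ) (h : Good E M p) :
    Good (E.image (fun r => s * r)) M p := by
  intro χ hχ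
  rw [Finset.sum_image (fun a _ b _ hab => Nat.eq_of_mul_eq_mul_left (by omega) hab)]
  have h1 : ∑ q ∈ E, χ ((s * q : ℕ) : ZMod p) = χ (s : ZMod p) * ∑ q ∈ E, χ (q : ZMod p) := by
    rw [Finset.mul_sum]
    refine Finset.sum_congr rfl fun q _ => ?_
    rw [Nat.cast_mul, map_mul]
  rw [h1, norm_mul]
  have h2 : ‖χ (s : ZMod p)‖ ≤ 1 := DirichletCharacter.norm_le_one χ _
  calc ‖χ (s : ZMod p)‖ * ‖∑ q ∈ E, χ (q : ZMod p)‖ ≤ 1 * ‖∑ q ∈ E, χ (q : ZMod p)‖ := by gcongr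
    _ = ‖∑ q ∈ E, χ (q : ZMod p)‖ := one_mul _
    _ ≤ M := h χ hχ

open Classical in
/-- the exceptional rough parts, one sign -/
noncomputable def XS (d : Dat) (ε : ℝ) (Z s M x : ℕ) (sg : ℝ) : Finset ℕ :=
  (Icc 1 M).filter (fun r : ℕ => Rough Z r ∧ ε * (Nat.primeCounting x : ℝ) <
    sg * ((cntE d (s * r) x : ℝ) - d.A * (Nat.primeCounting x : ℝ)))

theorem excS (d0 : Dat) (δ : ℝ) (hδ : 0 < δ) (hδ8 : δ ≤ 1 / 8) (ε : ℝ) (hε : 0 < ε) :
    ∃ x₀ : ℕ, ∀ d : Dat, d.G = d0.G → d.A = d0.A → d.p0 = d0.p0 → ∀ β : ℝ, 0 ≤ β →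
      ∀ Z M s N x : ℕ, 2 ≤ M → 1 ≤ s → s * M ≤ N → x₀ ≤ x → (N : ℝ) ^ 2 ≤ x →
      Real.log M ≤ δ * Real.log x → 2 * Real.log (Real.log x) ≤ δ * Real.log M →
      4 * Real.log x / Real.log M ≤ (Z : ℝ) ^ β → ∀ sg : ℝ, (sg = 1 ∨ sg = -1) →
      (#(XS d ε Z s M x sg) : ℝ) ≤ max ((M : ℝ) ^ (1 / 2 + β + 3 * δ)) x₀ := by
  classical
  obtain ⟨x₁, hx₁⟩ := avgG d0 δ hδ (ε / 2) (by positivity)
  refine ⟨max x₁ 3, fun d hdG hdA hdp β hβ Z M s N x hM hs hsM hx hNx h1 h2 h3 sg hsg => ?_⟩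
  have hxx : x₁ ≤ x := (le_max_left _ _).trans hx
  have hx3 : 3 ≤ x := (le_max_right _ _).trans hx
  by_contra hcon
  push Not at hcon
  obtain ⟨hc1, hc2⟩ := max_lt_iff.1 hcon
  set E : Finset ℕ := XS d ε Z s M x sg with hEd
  have hEI : E ⊆ Icc 1 M := by
    rw [hEd]; unfold XS; exact filter_subset _ _
  have hER : ∀ q ∈ E, Rough Z q := by
    intro q hq
    rw [hEd] at hq
    unfold XS at hq
    rw [mem_filter] at hq
    exact hq.2.1
  set E' : Finset ℕ := E.image (fun r => s * r) with hE'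
  have hinj : Set.InjOn (fun r : ℕ => s * r) E := fun a _ b _ hab =>
    Nat.eq_of_mul_eq_mul_left (by omega) hab
  have hcard : #E' = #E := card_image_of_injOn hinj
  have hE'I : E' ⊆ Icc 1 N := by
    intro n hn
    rw [hE', mem_image] at hn
    obtain ⟨r, hr, rfl⟩ := hn
    have := mem_Icc.1 (hEI hr)
    rw [mem_Icc]
    exact ⟨Nat.mul_pos hs this.1, (Nat.mul_le_mul_left s this.2).trans hsM⟩
  have hlx1 : 1 ≤ Real.log x := by
    have h4 : Real.exp 1 ≤ x := by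
      have : Real.exp 1 < 2.7182818286 := Real.exp_one_lt_d9
      have h5 : (3 : ℝ) ≤ x := by exact_mod_cast hx3
      linarith
    rw [Real.le_log_iff_exp_le (by positivity)]
    exact h4
  have hcx : (x₁ : ℝ) ≤ #E' := by
    rw [hcard]
    have : ((max x₁ 3 : ℕ) : ℝ) < #E := hc2
    have h4 : (x₁ : ℝ) ≤ ((max x₁ 3 : ℕ) : ℝ) := by exact_mod_cast le_max_left _ _
    linarith
  have hav := hx₁ d hdG hdA hdp N x hxx hNx E' hE'I hcx (fun S hS => by
    refine fewBadR δ β hδ hδ8 hβ Z M x hM h1 h2 hlx1 h3 E hEI hER hc1.le S (fun p hp => ?_)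
    obtain ⟨h4, h5⟩ := hS p hp
    refine ⟨h4, fun h6 => h5 ?_⟩
    rw [hcard]
    exact good_image E s p hs _ h6)
  set P : ℝ := (Nat.primeCounting x : ℝ) with hPd
  have hP0 : 0 < P := by
    have h1 : Nat.primeCounting 2 ≤ Nat.primeCounting x := Nat.monotone_primeCounting (by omega)
    have h2 : Nat.primeCounting 2 = 1 := by decide
    have : 0 < Nat.primeCounting x := by omega
    rw [hPd]
    exact_mod_cast this
  have he0 : (0 : ℝ) < #E' := by
    rw [hcard]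
    exact lt_of_le_of_lt (by positivity) hc1
  have hlow : ε * P * #E' ≤ sg * (∑ q ∈ E', (cntE d q x : ℝ) - d.A * P * #E') := by
    have h1 : sg * (∑ q ∈ E', (cntE d q x : ℝ) - d.A * P * #E') =
        ∑ q ∈ E', (sg * ((cntE d q x : ℝ) - d.A * P)) := by
      rw [← Finset.mul_sum, Finset.sum_sub_distrib, Finset.sum_const, nsmul_eq_mul]
      ring
    rw [h1]
    have h3 : ∑ _q ∈ E', ε * P ≤ ∑ q ∈ E', (sg * ((cntE d q x : ℝ) - d.A * P)) := by
      apply Finset.sum_le_sum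
      intro q hq
      rw [hE', mem_image] at hq
      obtain ⟨r, hr, rfl⟩ := hq
      rw [hEd] at hr
      unfold XS at hr
      rw [mem_filter] at hr
      exact hr.2.2.le
    rw [Finset.sum_const, nsmul_eq_mul] at h3
    linarith
  have hup : sg * (∑ q ∈ E', (cntE d q x : ℝ) - d.A * P * #E') ≤ ε / 2 * P * #E' := by
    rcases hsg with hs | hs
    · rw [hs, one_mul]; exact le_trans (le_abs_self _) hav
    · rw [hs]
      have := neg_abs_le (∑ q ∈ E', (cntE d q x : ℝ) - d.A * P * #E')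
      linarith
  have hpos : 0 < ε * P * #E' := by positivity
  have : ε / 2 * P * #E' = (ε * P * #E') / 2 := by ring
  linarith

open Classical in
/-- splitting the exceptional set by the smooth part -/
lemma split (d : Dat) (ε : ℝ) (Z N x : ℕ) :
    (#((Icc 1 N).filter (fun n : ℕ => ε * (Nat.primeCounting x : ℝ) <
      |(cntE d n x : ℝ) - d.A * (Nat.primeCounting x : ℝ)|)) : ℝ) ≤
    ∑ s ∈ (Icc 1 N).filter (fun s : ℕ => s ∈ Nat.smoothNumbers Z),
      ((#(XS d ε Z s (N / s) x 1) : ℝ) + #(XS d ε Z s (N / s) x (-1))) := by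
  have hsub : (Icc 1 N).filter (fun n : ℕ => ε * (Nat.primeCounting x : ℝ) <
      |(cntE d n x : ℝ) - d.A * (Nat.primeCounting x : ℝ)|) ⊆
      ((Icc 1 N).filter (fun s : ℕ => s ∈ Nat.smoothNumbers Z)).biUnion
        (fun s => (XS d ε Z s (N / s) x 1 ∪ XS d ε Z s (N / s) x (-1)).image (fun r => s * r)) := by
    intro n hn
    rw [mem_filter, mem_Icc] at hn
    obtain ⟨⟨hn1, hn2⟩, hn3⟩ := hn
    obtain ⟨s, r, hs, hr, rfl⟩ := exists_smooth_mul_rough Z n (by omega)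
    have hs0 : 0 < s := Nat.pos_of_ne_zero (by rintro rfl; simp at hn1)
    have hr0 : 0 < r := Nat.pos_of_ne_zero (by rintro rfl; simp at hn1)
    rw [mem_biUnion]
    refine ⟨s, ?_, ?_⟩
    · rw [mem_filter, mem_Icc]
      exact ⟨⟨hs0, (Nat.le_mul_of_pos_right s hr0).trans hn2⟩, hs⟩
    · rw [mem_image]
      refine ⟨r, ?_, rfl⟩
      have hrN : r ≤ N / s := by
        rw [Nat.le_div_iff_mul_le hs0, mul_comm]
        exact hn2
      rw [mem_union]
      unfold XS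
      rw [mem_filter, mem_filter, mem_Icc]
      rcases lt_abs.1 hn3 with h3 | h3
      · left; exact ⟨⟨hr0, hrN⟩, hr, by linarith⟩
      · right; exact ⟨⟨hr0, hrN⟩, hr, by linarith⟩
  have h1 := (card_le_card hsub).trans card_biUnion_le
  have h2 : ∑ s ∈ (Icc 1 N).filter (fun s : ℕ => s ∈ Nat.smoothNumbers Z),
      #((XS d ε Z s (N / s) x 1 ∪ XS d ε Z s (N / s) x (-1)).image (fun r => s * r)) ≤
      ∑ s ∈ (Icc 1 N).filter (fun s : ℕ => s ∈ Nat.smoothNumbers Z),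
      (#(XS d ε Z s (N / s) x 1) + #(XS d ε Z s (N / s) x (-1))) := by
    apply Finset.sum_le_sum
    intro s _
    exact card_image_le.trans (card_union_le _ _)
  exact_mod_cast h1.trans h2

end Pool.Agent.N734.AP
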