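import Mathlib
import Pool.Agent.N734.AP.Exc

set_option autoImplicit false

/-! # The exceptional set at one `x ≤ exp ((log N) ^ B)` -/

namespace Pool.Agent.N734.AP

open Finset Filter Topology
open Pool.Agent.H386R2.Artin (PP Good)
open Pool.Agent.H771R4.SE (Dat cntE ev_pow)

lemma tlogN : Tendsto (fun N : ℕ => Real.log (N : ℝ)) atTop atTop :=
  Real.tendsto_log_atTop.comp tendsto_natCast_atTop_atTop

open Classical in
theorem oneX (θ B c : ℝ) (hθ1 : θ < 1) (hB : 1 < B) (hBθ : 2 * B * (1 - θ) < 1) (hc : 0 < c)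
    (d0 : Dat) (ε : ℝ) (hε : 0 < ε) : ∃ N₀ : ℕ, ∀ d : Dat, d.G = d0.G → d.A = d0.A →
      d.p0 = d0.p0 → ∀ N x : ℕ, N₀ ≤ N → (Real.log N) ^ (1 + c) ≤ Real.log x →
      Real.log x ≤ (Real.log N) ^ B →
      (#((Icc 1 N).filter (fun n : ℕ => ε * (Nat.primeCounting x : ℝ) <
        |(cntE d n x : ℝ) - d.A * (Nat.primeCounting x : ℝ)|)) : ℝ) ≤ (N : ℝ) ^ θ := by
  have hB0 : 0 < B := by linarith
  -- parameters
  set a : ℝ := θ - (1 - 1 / (2 * B)) with ha
  have ha0 : 0 < a := by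
    have h1 : 1 - θ < 1 / (2 * B) := by
      rw [lt_div_iff₀ (by positivity)]
      linarith
    linarith
  set δ : ℝ := min (1 / 8) (a / 16) with hδd
  have hδ : 0 < δ := lt_min (by norm_num) (by positivity)
  have hδ8 : δ ≤ 1 / 8 := min_le_left _ _
  have hδa : δ ≤ a / 16 := min_le_right _ _
  set β : ℝ := 1 / 2 - 1 / (2 * B) + δ with hβd
  have h2B : 1 / (2 * B) < 1 / 2 := by
    rw [div_lt_div_iff₀ (by positivity) (by norm_num)]
    linarith
  have h2B0 : 0 < 1 / (2 * B) := by positivity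
  have hβ : 0 < β := by linarith
  set σ : ℝ := 1 / 2 + β + 3 * δ with hσd
  have hσ' : σ = 1 - 1 / (2 * B) + 4 * δ := by rw [hσd, hβd]; ring
  have hσθ : σ + 3 * δ ≤ θ := by
    have : θ = a + (1 - 1 / (2 * B)) := by rw [ha]; ring
    linarith
  have hσ0 : 0 < σ := by positivity
  have hσ1 : σ < 1 := by linarith
  obtain ⟨x₀, hx₀⟩ := excS d0 δ hδ hδ8 ε hε
  set c1 : ℝ := (1 - (2 : ℝ) ^ (-σ))⁻¹ with hc1
  have hc10 : 0 < c1 := by
    have h2lt : (2 : ℝ) ^ (-σ) < 1 := Real.rpow_lt_one_of_one_lt_of_neg (by norm_num) (by linarith)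
    exact inv_pos.2 (by linarith)
  -- eventualities in `l = log N`
  have hev : ∀ᶠ l : ℝ in atTop, 4 / δ ≤ l ^ (2 * B * δ) ∧ 1 / δ ≤ l ^ c ∧
      2 * B * Real.log l ≤ δ * (δ * l) ∧ 2 ≤ l ^ c ∧
      c1 * ((2 * l ^ (2 * B)) ^ (1 - σ) / (1 - σ)) ≤ δ * l ∧ 1 ≤ l := by
    have e1 := (tendsto_rpow_atTop (show 0 < 2 * B * δ by positivity)).eventually_ge_atTop (4 / δ)
    have e2 := (tendsto_rpow_atTop hc).eventually_ge_atTop (max (1 / δ) 2)
    have e3 : ∀ᶠ l : ℝ in atTop, 2 * B * Real.log l ≤ δ * (δ * l) := by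
      have h1 := Real.isLittleO_log_id_atTop.def (show (0 : ℝ) < δ * δ / (2 * B) by positivity)
      filter_upwards [h1, eventually_ge_atTop 1] with l h1 h2
      rw [Real.norm_eq_abs, abs_of_nonneg (Real.log_nonneg h2), id, Real.norm_eq_abs,
        abs_of_pos (by linarith)] at h1
      have : 2 * B * Real.log l ≤ 2 * B * (δ * δ / (2 * B) * l) := by gcongr
      refine this.trans (le_of_eq ?_)
      field_simp
    have e4 := ev_pow (1 - 8 * B * δ) (δ * (1 - σ) / (c1 * (2 : ℝ) ^ (1 - σ)))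
      (by have : 0 < 8 * B * δ := by positivity
          linarith)
      (by have : 0 < 1 - σ := by linarith
          positivity)
    filter_upwards [e1, e2, e3, e4, eventually_ge_atTop 1] with l e1 e2 e3 e4 e5
    refine ⟨e1, (le_max_left _ _).trans e2, e3, (le_max_right _ _).trans e2, ?_, e5⟩
    have l0 : 0 < l := by linarith
    have h1σ : 0 < 1 - σ := by linarith
    have h6 : (2 * l ^ (2 * B)) ^ (1 - σ) = (2 : ℝ) ^ (1 - σ) * l ^ (1 - 8 * B * δ) := by
      rw [Real.mul_rpow (by norm_num) (by positivity), ← Real.rpow_mul l0.le]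
      congr 2
      rw [hσ']
      field_simp
      ring
    rw [h6]
    calc c1 * ((2 : ℝ) ^ (1 - σ) * l ^ (1 - 8 * B * δ) / (1 - σ))
        ≤ c1 * ((2 : ℝ) ^ (1 - σ) * (δ * (1 - σ) / (c1 * (2 : ℝ) ^ (1 - σ)) * l) / (1 - σ)) := by
          gcongr
      _ = δ * l := by field_simp
  have hNδ : ∀ᶠ N : ℕ in atTop, max (x₀ : ℝ) 2 ≤ (N : ℝ) ^ δ :=
    ((tendsto_rpow_atTop hδ).comp tendsto_natCast_atTop_atTop).eventually_ge_atTop _
  obtain ⟨N₀, hN₀⟩ := eventually_atTop.1 (((tlogN.eventually hev).and hNδ).and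
    (eventually_ge_atTop 2))
  refine ⟨N₀, fun d hdG hdA hdp N x hN hlow hup => ?_⟩
  obtain ⟨⟨⟨v1, v2, v3, v4, v5, v6⟩, v7⟩, v8⟩ := hN₀ N hN
  have hN0 : (0 : ℝ) < N := by exact_mod_cast (by omega : 0 < N)
  have hN1 : (1 : ℝ) ≤ N := by exact_mod_cast (by omega : 1 ≤ N)
  have hN1' : (1 : ℝ) < N := by exact_mod_cast (by omega : 1 < N)
  set l : ℝ := Real.log N with hl
  have hl0 : 0 < l := by linarith
  have hlpow : l ^ (1 + c) = l * l ^ c := by rw [Real.rpow_add hl0, Real.rpow_one]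
  have hlx2 : 2 * l ≤ Real.log x := by
    refine le_trans ?_ hlow
    rw [hlpow]
    nlinarith
  have hlx1 : 1 ≤ Real.log x := by linarith
  have hxpos : (0 : ℝ) < x := by
    rcases Nat.eq_zero_or_pos x with h | h
    · rw [h, Nat.cast_zero, Real.log_zero] at hlx1
      linarith
    · exact_mod_cast h
  have hNx : (N : ℝ) ^ 2 ≤ x := by
    rw [← Real.log_le_log_iff (by positivity) hxpos, Real.log_pow]
    push_cast
    exact hlx2
  have hNlx : N ≤ x := by
    have : (N : ℝ) ≤ (N : ℝ) ^ 2 := by nlinarith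
    exact_mod_cast this.trans hNx
  have hx0x : x₀ ≤ x := by
    have h1 : (x₀ : ℝ) ≤ (N : ℝ) ^ δ := (le_max_left _ _).trans v7
    have h2 : (N : ℝ) ^ δ ≤ (N : ℝ) ^ (1 : ℝ) :=
      Real.rpow_le_rpow_of_exponent_le hN1 (by linarith)
    rw [Real.rpow_one] at h2
    have h3 : x₀ ≤ N := by exact_mod_cast h1.trans h2
    exact h3.trans hNlx
  have hllx : Real.log (Real.log x) ≤ B * Real.log l := by
    have := Real.log_le_log (by linarith) hup
    rwa [Real.log_rpow hl0] at this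
  -- Z
  set Z : ℕ := ⌈l ^ (2 * B)⌉₊ with hZ
  have hZ1 : l ^ (2 * B) ≤ Z := Nat.le_ceil _
  have hlB1 : 1 ≤ l ^ (2 * B) := Real.one_le_rpow v6 (by positivity)
  have hZ2 : (Z : ℝ) ≤ 2 * l ^ (2 * B) := by
    have := Nat.ceil_lt_add_one (show 0 ≤ l ^ (2 * B) by positivity)
    rw [← hZ] at this
    linarith
  set T : Finset ℕ := (Icc 1 N).filter (fun s : ℕ => s ∈ Nat.smoothNumbers Z) with hT
  -- the bound for one smooth part
  have key : ∀ s ∈ T, ∀ sg : ℝ, (sg = 1 ∨ sg = -1) →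
      (#(XS d ε Z s (N / s) x sg) : ℝ) ≤ (N : ℝ) ^ δ * ((N : ℝ) ^ σ * (s : ℝ) ^ (-σ)) := by
    intro s hs sg hsg
    rw [hT, mem_filter, mem_Icc] at hs
    obtain ⟨⟨hs1, hsN⟩, -⟩ := hs
    have hs0 : (0 : ℝ) < s := by exact_mod_cast (by omega : 0 < s)
    set M : ℕ := N / s with hM
    have hMN : (M : ℝ) ≤ (N : ℝ) / s := Nat.cast_div_le
    have hM1 : 1 ≤ M := by
      rw [hM, Nat.one_le_div_iff (by omega)]
      exact hsN
    have hM1' : (1 : ℝ) ≤ M := by exact_mod_cast hM1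
    have hNs1 : 1 ≤ (N : ℝ) / s := hM1'.trans hMN
    have hform : (N : ℝ) ^ σ * (s : ℝ) ^ (-σ) = ((N : ℝ) / s) ^ σ := by
      rw [Real.div_rpow hN0.le hs0.le, Real.rpow_neg hs0.le]
      rfl
    rw [hform]
    have hone : 1 ≤ ((N : ℝ) / s) ^ σ := Real.one_le_rpow hNs1 hσ0.le
    have hNδ1 : 1 ≤ (N : ℝ) ^ δ := Real.one_le_rpow hN1 hδ.le
    by_cases hlM : δ * l ≤ Real.log M
    · have hM2 : 2 ≤ M := by
        by_contra hcon
        have : M = 1 := by omega
        rw [this, Nat.cast_one, Real.log_one] at hlM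
        have : 0 < δ * l := by positivity
        linarith
      have hMleN : M ≤ N := Nat.div_le_self _ _
      have hlMN : Real.log M ≤ l := Real.log_le_log (by linarith) (by exact_mod_cast hMleN)
      have hlM0 : 0 < Real.log M := lt_of_lt_of_le (by positivity) hlM
      have h1 := hx₀ d hdG hdA hdp β hβ.le Z M s N x hM2 hs1
        (by rw [hM]; exact Nat.mul_div_le _ _) hx0x hNx ?_ ?_ ?_ sg hsg
      · refine h1.trans (max_le ?_ ?_)
        · calc (M : ℝ) ^ (1 / 2 + β + 3 * δ) ≤ ((N : ℝ) / s) ^ σ :=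
                Real.rpow_le_rpow (by positivity) hMN hσ0.le
            _ ≤ (N : ℝ) ^ δ * ((N : ℝ) / s) ^ σ := le_mul_of_one_le_left (by positivity) hNδ1
        · calc (x₀ : ℝ) ≤ (N : ℝ) ^ δ := (le_max_left _ _).trans v7
            _ ≤ (N : ℝ) ^ δ * ((N : ℝ) / s) ^ σ := le_mul_of_one_le_right (by positivity) hone
      · -- log M ≤ δ log x
        refine hlMN.trans ?_
        have h2 : 1 / δ * l ≤ Real.log x := by
          refine le_trans ?_ hlow
          rw [hlpow, mul_comm]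
          gcongr
        rw [one_div_mul_eq_div, div_le_iff₀ hδ] at h2
        linarith
      · -- 2 log log x ≤ δ log M
        have h2 : δ * (δ * l) ≤ δ * Real.log M := by gcongr
        linarith
      · -- r
        have h2 : 4 * Real.log x / Real.log M ≤ 4 * l ^ B / (δ * l) := by gcongr
        refine h2.trans ?_
        have h3 : l ^ (B - 1 + 2 * B * δ) ≤ (Z : ℝ) ^ β := by
          have h4 : l ^ (B - 1 + 2 * B * δ) = (l ^ (2 * B)) ^ β := by
            rw [← Real.rpow_mul hl0.le]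
            congr 1
            rw [hβd]
            field_simp
          rw [h4]
          exact Real.rpow_le_rpow (by positivity) hZ1 hβ.le
        refine le_trans ?_ h3
        have h5 : l ^ (B - 1 + 2 * B * δ) = l ^ B / l * l ^ (2 * B * δ) := by
          rw [Real.rpow_add hl0, Real.rpow_sub_one hl0.ne']
        rw [h5]
        calc 4 * l ^ B / (δ * l) = l ^ B / l * (4 / δ) := by field_simp
          _ ≤ l ^ B / l * l ^ (2 * B * δ) := by gcongr
    · push Not at hlM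
      have h1 : (#(XS d ε Z s M x sg) : ℝ) ≤ M := by
        have : #(XS d ε Z s M x sg) ≤ #(Icc 1 M) := by
          unfold XS
          exact card_filter_le _ _
        rw [Nat.card_Icc, Nat.add_sub_cancel] at this
        exact_mod_cast this
      have h2 : (M : ℝ) ≤ (N : ℝ) ^ δ := by
        rw [Real.rpow_def_of_pos hN0, ← hl, mul_comm, ← Real.log_le_iff_le_exp (by linarith)]
        exact hlM.le
      calc (#(XS d ε Z s M x sg) : ℝ) ≤ (N : ℝ) ^ δ := h1.trans h2
        _ ≤ (N : ℝ) ^ δ * ((N : ℝ) / s) ^ σ := le_mul_of_one_le_right (by positivity) hone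
  -- the sum over the smooth parts
  have hsum : ∑ s ∈ T, (s : ℝ) ^ (-σ) ≤ (N : ℝ) ^ δ := by
    have h1 := smooth_sum σ hσ0 hσ1 Z T (fun s hs => by
      rw [hT, mem_filter] at hs
      exact hs.2)
    refine h1.trans ?_
    rw [Real.rpow_def_of_pos hN0, ← hl, mul_comm l δ]
    apply Real.exp_le_exp.2
    refine le_trans ?_ v5
    have h1σ : 0 < 1 - σ := by linarith
    gcongr
  have hfin := split d ε Z N x
  refine hfin.trans ?_
  calc ∑ s ∈ T, ((#(XS d ε Z s (N / s) x 1) : ℝ) + #(XS d ε Z s (N / s) x (-1)))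
      ≤ ∑ s ∈ T, 2 * ((N : ℝ) ^ δ * ((N : ℝ) ^ σ * (s : ℝ) ^ (-σ))) := by
        apply Finset.sum_le_sum
        intro s hs
        have h1 := key s hs 1 (Or.inl rfl)
        have h2 := key s hs (-1) (Or.inr rfl)
        linarith
    _ = 2 * (N : ℝ) ^ δ * (N : ℝ) ^ σ * ∑ s ∈ T, (s : ℝ) ^ (-σ) := by
        rw [Finset.mul_sum]
        refine Finset.sum_congr rfl fun s _ => ?_
        ring
    _ ≤ (N : ℝ) ^ δ * (N : ℝ) ^ δ * (N : ℝ) ^ σ * (N : ℝ) ^ δ := by
        have h1 : (2 : ℝ) ≤ (N : ℝ) ^ δ := (le_max_right _ _).trans v7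
        gcongr
    _ = (N : ℝ) ^ (σ + 3 * δ) := by
        rw [← Real.rpow_add hN0, ← Real.rpow_add hN0, ← Real.rpow_add hN0]
        congr 1
        ring
    _ ≤ (N : ℝ) ^ θ := Real.rpow_le_rpow_of_exponent_le hN1 hσθ

end Pool.Agent.N734.AP
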