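import Mathlib
import Pool.Agent.H771R4.SE.AllX
import Pool.Agent.N734.AP.OneX

set_option autoImplicit false

/-! # All `x` with `exp ((log N) ^ (1 + c)) ≤ x ≤ exp ((log N) ^ B)` at the same time -/

namespace Pool.Agent.N734.AP

open Finset Filter Topology
open Pool.Agent.H771R4.SE (Dat cntE cntE_mono)
open Pool.Agent.H730R2.AA.Grid (g g_ge g_one_le g_step g_mono interp pi_ratio)

open Classical in
/-- the integers that are exceptional for some `x` of the range -/
noncomputable def badU (d : Dat) (ε c B : ℝ) (N : ℕ) : Finset ℕ :=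
  (Icc 1 N).filter (fun n : ℕ => ∃ x : ℕ, Real.exp ((Real.log N) ^ (1 + c)) ≤ x ∧
    (x : ℝ) ≤ Real.exp ((Real.log N) ^ B) ∧
    ε * (Nat.primeCounting x : ℝ) < |(cntE d n x : ℝ) - d.A * (Nat.primeCounting x : ℝ)|)

theorem allU (θ B c : ℝ) (hθ1 : θ < 1) (hB : 1 < B) (hBθ : 2 * B * (1 - θ) < 1) (hc : 0 < c)
    (d0 : Dat) (ε : ℝ) (hε : 0 < ε) : ∃ N₀ : ℕ, ∀ d : Dat, d.G = d0.G → d.A = d0.A →
      d.p0 = d0.p0 → ∀ N : ℕ, N₀ ≤ N → (#(badU d ε c B N) : ℝ) ≤ (N : ℝ) ^ θ := by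
  classical
  have hB0 : 0 < B := by linarith
  have h1θ : 0 < 1 - θ := by linarith
  -- slightly smaller θ and larger B
  obtain ⟨B', hBB', hB'θ⟩ : ∃ B' : ℝ, B < B' ∧ 2 * B' * (1 - θ) < 1 := by
    have h1 : B < 1 / (2 * (1 - θ)) := by
      rw [lt_div_iff₀ (by positivity)]
      linarith
    obtain ⟨B', h2, h3⟩ := exists_between h1
    refine ⟨B', h2, ?_⟩
    rw [lt_div_iff₀ (by positivity)] at h3
    linarith
  have hB'1 : 1 < B' := hB.trans hBB'
  have hB'0 : 0 < B' := by linarith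
  obtain ⟨θ', hθ'θ, hB'θ'⟩ : ∃ θ' : ℝ, θ' < θ ∧ 2 * B' * (1 - θ') < 1 := by
    have h1 : 1 - 1 / (2 * B') < θ := by
      have : 1 - θ < 1 / (2 * B') := by
        rw [lt_div_iff₀ (by positivity)]
        linarith
      linarith
    obtain ⟨θ', h2, h3⟩ := exists_between h1
    refine ⟨θ', h3, ?_⟩
    have h4 : 1 - θ' < 1 / (2 * B') := by linarith
    rw [lt_div_iff₀ (by positivity)] at h4
    linarith
  have hd := abs_nonneg d0.A
  set e : ℝ := min 1 (ε / (|d0.A| + 3)) with hedef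
  have he : 0 < e := lt_min one_pos (by positivity)
  have he1 : e ≤ 1 := min_le_left _ _
  have hee : (|d0.A| + 3) * e ≤ ε := by
    have : e ≤ ε / (|d0.A| + 3) := min_le_right _ _
    rw [le_div_iff₀ (by positivity)] at this
    linarith
  obtain ⟨N₁, hexc⟩ := oneX θ' B' (c / 2) (by linarith) hB'1 hB'θ' (by positivity) d0 e he
  obtain ⟨ρ, hρ, hρ2, X, hX2, hpi⟩ := pi_ratio e he
  have hρρ : 0 < ρ ^ 2 - ρ := by nlinarith
  have hlρ : 0 < Real.log ρ := Real.log_pos hρ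
  have hρ4 : ρ ^ 2 ≤ 4 := by nlinarith
  -- the number of grid points
  have hJev : ∀ᶠ N : ℕ in atTop, (Real.log N) ^ B' / Real.log ρ + 1 ≤ (N : ℝ) ^ (θ - θ') := by
    have hs : 0 < θ - θ' := by linarith
    have h1 := (isLittleO_log_rpow_rpow_atTop B' hs).def
      (show (0 : ℝ) < Real.log ρ / 4 by positivity)
    have h2 := (tendsto_natCast_atTop_atTop (R := ℝ)).eventually h1
    have h3 : ∀ᶠ N : ℕ in atTop, (4 : ℝ) ≤ (N : ℝ) ^ (θ - θ') :=
      ((tendsto_rpow_atTop hs).comp tendsto_natCast_atTop_atTop).eventually_ge_atTop _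
    filter_upwards [h2, h3, eventually_ge_atTop 2] with N h2 h3 h4
    have hN : (2 : ℝ) ≤ N := by exact_mod_cast h4
    have hl : 0 < Real.log N := Real.log_pos (by linarith)
    rw [Real.norm_eq_abs, abs_of_pos (by positivity), Real.norm_eq_abs,
      abs_of_pos (by positivity)] at h2
    have h5 : (Real.log N) ^ B' / Real.log ρ ≤ (N : ℝ) ^ (θ - θ') / 4 := by
      rw [div_le_iff₀ hlρ]
      calc (Real.log N) ^ B' ≤ Real.log ρ / 4 * (N : ℝ) ^ (θ - θ') := h2
        _ = (N : ℝ) ^ (θ - θ') / 4 * Real.log ρ := by ring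
    linarith
  have hbig : ∀ᶠ N : ℕ in atTop, ((X : ℝ) + 1 / (ρ ^ 2 - ρ)) + 4 ≤ (N : ℝ) :=
    (tendsto_natCast_atTop_atTop (R := ℝ)).eventually_ge_atTop _
  have hup : ∀ᶠ N : ℕ in atTop, (Real.log N) ^ B + Real.log 4 ≤ (Real.log N) ^ B' ∧
      (Real.log N) ^ (1 + c / 2) + Real.log 4 ≤ (Real.log N) ^ (1 + c) ∧
      Real.log N ≤ (Real.log N) ^ (1 + c / 2) := by
    have h1 : ∀ u v : ℝ, 0 < u → u < v → ∀ᶠ l : ℝ in atTop, l ^ u + Real.log 4 ≤ l ^ v := by
      intro u v hu huv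
      have h2 := (tendsto_rpow_atTop (show 0 < v - u by linarith)).eventually_ge_atTop 2
      have h3 := (tendsto_rpow_atTop hu).eventually_ge_atTop (Real.log 4)
      filter_upwards [h2, h3, eventually_gt_atTop 0] with l h2 h3 h4
      have h5 : l ^ v = l ^ u * l ^ (v - u) := by
        rw [← Real.rpow_add h4]; congr 1; ring
      have h6 : 0 < l ^ u := by positivity
      rw [h5]
      nlinarith
    have h2 : ∀ᶠ l : ℝ in atTop, l ≤ l ^ (1 + c / 2) := by
      filter_upwards [eventually_ge_atTop 1] with l hl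
      nth_rewrite 1 [← Real.rpow_one l]
      exact Real.rpow_le_rpow_of_exponent_le hl (by linarith)
    exact tlogN.eventually ((h1 B B' hB0 hBB').and
      ((h1 (1 + c / 2) (1 + c) (by linarith) (by linarith)).and h2))
  obtain ⟨N₀, hN₀⟩ := eventually_atTop.1 (((hJev.and hbig).and hup).and
    (eventually_ge_atTop N₁))
  refine ⟨N₀, fun d hdG hdA hdp N hN => ?_⟩
  obtain ⟨⟨⟨hJ, hBg⟩, ⟨hup1, hup2, hup3⟩⟩, hNN1⟩ := hN₀ N hN
  rw [← hdA] at hee
  have hq : 0 < 1 / (ρ ^ 2 - ρ) := by positivity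
  have hXnn : (0 : ℝ) ≤ X := Nat.cast_nonneg _
  have hN4 : (4 : ℝ) ≤ N := by linarith
  have hN0 : (0 : ℝ) < N := by linarith
  have hN1 : (1 : ℝ) ≤ N := by linarith
  have hl0 : 0 < Real.log N := Real.log_pos (by linarith)
  set Y : ℝ := (Real.log N) ^ B' with hY
  have hY0 : 0 < Y := by positivity
  set W : ℝ := (Real.log N) ^ (1 + c / 2) with hW
  set J : ℕ := ⌊Y / Real.log ρ⌋₊ + 1 with hJdef
  have hJr : (J : ℝ) ≤ (N : ℝ) ^ (θ - θ') := by
    refine le_trans ?_ hJ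
    rw [hJdef]
    push_cast
    have : (⌊Y / Real.log ρ⌋₊ : ℝ) ≤ Y / Real.log ρ := Nat.floor_le (by positivity)
    linarith
  -- the exceptional set at one grid point
  set Bd : ℕ → Finset ℕ := fun j => if W ≤ Real.log (g ρ j) ∧ Real.log (g ρ j) ≤ Y then
    (Icc 1 N).filter (fun n : ℕ => e * (Nat.primeCounting (g ρ j) : ℝ) <
        |(cntE d n (g ρ j) : ℝ) - d.A * (Nat.primeCounting (g ρ j) : ℝ)|) else ∅ with hBd
  have hBdc : ∀ j, (#(Bd j) : ℝ) ≤ (N : ℝ) ^ θ' := by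
    intro j
    simp only [hBd]
    split_ifs with h
    · exact hexc d hdG hdA hdp N (g ρ j) hNN1 h.1 h.2
    · rw [card_empty, Nat.cast_zero]
      positivity
  have hincl : badU d ε c B N ⊆ (range J).biUnion Bd := by
    intro n hn
    unfold badU at hn
    rw [mem_filter] at hn
    obtain ⟨hn, x, hxN, hxN', hx⟩ := hn
    have hx0 : (0 : ℝ) < x := lt_of_lt_of_le (Real.exp_pos _) hxN
    have hx1 : (1 : ℝ) ≤ x := by
      have : 0 < x := by exact_mod_cast hx0
      exact_mod_cast this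
    have hlogx1 : (Real.log N) ^ (1 + c) ≤ Real.log x := by
      rw [Real.le_log_iff_exp_le hx0]
      exact hxN
    have hlogx2 : Real.log x ≤ (Real.log N) ^ B := by
      rw [Real.log_le_iff_le_exp hx0]
      exact hxN'
    obtain ⟨j, hj1, hj2⟩ := exists_nat_pow_near hx1 hρ
    have hgx : g ρ j ≤ x := Nat.ceil_le.2 hj1
    have hxg : x ≤ g ρ (j + 1) := by
      have : (x : ℝ) ≤ g ρ (j + 1) := hj2.le.trans (g_ge _)
      exact_mod_cast this
    have hgx' : (g ρ j : ℝ) ≤ x := by exact_mod_cast hgx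
    have hxg' : (x : ℝ) ≤ g ρ (j + 1) := by exact_mod_cast hxg
    have hgj1 : (x : ℝ) ≤ 4 * g ρ j := by
      calc (x : ℝ) ≤ ρ ^ (j + 1) := hj2.le
        _ = ρ * ρ ^ j := by rw [pow_succ, mul_comm]
        _ ≤ 4 * g ρ j := by
          have := g_ge (ρ := ρ) j
          have h0 : (0 : ℝ) ≤ g ρ j := Nat.cast_nonneg _
          have : ρ * ρ ^ j ≤ ρ * g ρ j := by gcongr
          nlinarith
    have hg0 : (0 : ℝ) < g ρ j := by linarith
    have hg10 : (0 : ℝ) < g ρ (j + 1) := by linarith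
    have hgjlow : W ≤ Real.log (g ρ j) := by
      have h1 := Real.log_le_log hx0 hgj1
      rw [Real.log_mul (by norm_num) hg0.ne'] at h1
      linarith
    have hgN : (N : ℝ) ≤ g ρ j := by
      rw [← Real.log_le_log_iff hN0 hg0]
      linarith
    have hstep : (g ρ (j + 1) : ℝ) ≤ ρ ^ 2 * g ρ j := by
      refine g_step ?_ hρ
      have h1 : 1 / (ρ ^ 2 - ρ) ≤ g ρ j := by linarith
      rw [div_le_iff₀ hρρ] at h1
      linarith
    have hgj1up : Real.log (g ρ (j + 1)) ≤ Y := by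
      have h1 : (g ρ (j + 1) : ℝ) ≤ 4 * x :=
        hstep.trans (mul_le_mul hρ4 hgx' hg0.le (by norm_num))
      have h2 := Real.log_le_log hg10 h1
      rw [Real.log_mul (by norm_num) hx0.ne'] at h2
      linarith
    have hgjup : Real.log (g ρ j) ≤ Y :=
      (Real.log_le_log hg0 (hgx'.trans hxg')).trans hgj1up
    have hgj1low : W ≤ Real.log (g ρ (j + 1)) :=
      hgjlow.trans (Real.log_le_log hg0 (hgx'.trans hxg'))
    have hidx : ∀ i : ℕ, Real.log (g ρ i) ≤ Y → i < J := by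
      intro i hi
      have h2 : Real.log (ρ ^ i) ≤ Real.log (g ρ i) := Real.log_le_log (by positivity) (g_ge i)
      rw [Real.log_pow] at h2
      have h3 : (i : ℝ) ≤ Y / Real.log ρ := by
        rw [le_div_iff₀ hlρ]
        exact h2.trans hi
      have h4 : i ≤ ⌊Y / Real.log ρ⌋₊ := Nat.le_floor h3
      omega
    rw [mem_biUnion]
    by_contra hcon
    push Not at hcon
    have hn0 := hcon j (mem_range.2 (hidx j hgjup))
    have hn1 := hcon (j + 1) (mem_range.2 (hidx (j + 1) hgj1up))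
    simp only [hBd] at hn0 hn1
    rw [if_pos ⟨hgjlow, hgjup⟩, mem_filter, not_and, not_lt] at hn0
    rw [if_pos ⟨hgj1low, hgj1up⟩, mem_filter, not_and, not_lt] at hn1
    have ha0 := hn0 hn
    have ha1 := hn1 hn
    have hXg : X ≤ g ρ j := by
      have : (X : ℝ) ≤ g ρ j := le_trans (by linarith) hgN
      exact_mod_cast this
    have hpij : (Nat.primeCounting (g ρ (j + 1)) : ℝ) ≤ (1 + e) * Nat.primeCounting (g ρ j) :=
      hpi _ _ hXg (hgx.trans hxg) hstep
    have hfin := interp (δ := d.A) (e := e) (P0 := (Nat.primeCounting (g ρ j) : ℝ))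
      (P := (Nat.primeCounting x : ℝ)) (P1 := (Nat.primeCounting (g ρ (j + 1)) : ℝ))
      (A0 := (cntE d n (g ρ j) : ℝ)) (A := (cntE d n x : ℝ))
      (A1 := (cntE d n (g ρ (j + 1)) : ℝ)) he he1 (Nat.cast_nonneg _)
      (by exact_mod_cast Nat.monotone_primeCounting hgx)
      (by exact_mod_cast Nat.monotone_primeCounting hxg) hpij
      (by exact_mod_cast cntE_mono d n hgx) (by exact_mod_cast cntE_mono d n hxg) ha0 ha1
    have hlast : (|d.A| + 3) * e * (Nat.primeCounting x : ℝ) ≤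
        ε * (Nat.primeCounting x : ℝ) := by
      gcongr
    linarith
  have h1 : (#(badU d ε c B N) : ℝ) ≤ ∑ j ∈ range J, (#(Bd j) : ℝ) := by
    exact_mod_cast (card_le_card hincl).trans card_biUnion_le
  calc (#(badU d ε c B N) : ℝ) ≤ ∑ j ∈ range J, (#(Bd j) : ℝ) := h1
    _ ≤ ∑ _j ∈ range J, (N : ℝ) ^ θ' := Finset.sum_le_sum fun j _ => hBdc j
    _ = J * (N : ℝ) ^ θ' := by rw [Finset.sum_const, nsmul_eq_mul, card_range]
    _ ≤ (N : ℝ) ^ (θ - θ') * (N : ℝ) ^ θ' := by gcongr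
    _ = (N : ℝ) ^ θ := by
      rw [← Real.rpow_add hN0]; congr 1; ring

end Pool.Agent.N734.AP
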